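import Pool.Agent.Lib.H54F.C5

/-! # The generic 3 x 3 determinantal hypersurface has finite F-representation type in
characteristic two -/

namespace Pool.Agent.Results.MP_babf32_ag.Det3CharTwo

open Pool.Agent.Lib.H54F

universe u

/-- Let `K` be a field of characteristic two which is finite over its subfield of squares. Then the
determinantal ring `K[x_ij : 1 ≤ i, j ≤ 3] / I_3(X)` has finite F-representation type. -/
theorem result (K : Type u) [Field K] [CharP K 2]
    (hK : Module.Finite K (FrobPush K 2 1 K)) : HasFFRT (DetRing K 3 3 3) 2 :=
  ffrt_det3 K hK

end Pool.Agent.Results.MP_babf32_ag.Det3CharTwo
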